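import Mathlib
import Pool.Agent.H7.OPP.Stmts

/-!
# OPP, module FRQ: equivariance of the frames and of the determinant
-/

set_option autoImplicit false

open scoped Topology ComplexConjugate

namespace Pool.OPP

theorem FRQ_omsq (g : ℕ) : conj (om ^ g) * om ^ g = 1 := by
  rw [mul_comm, Complex.mul_conj, Complex.normSq_eq_norm_sq, norm_pow, norm_om]
  norm_num

theorem FRQ_chi_sq (hAct : SAct) (γ : ℕ → ZMod 3) (s : JI) : chi γ s * conj (chi γ s) = 1 := by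
  have h : ‖chi γ s‖ = 1 := hAct.2.2.2.2.2.2.2.2.1 γ s
  rw [Complex.mul_conj, Complex.normSq_eq_norm_sq, h]
  norm_num

theorem FRQ_chi (γ : ℕ → ZMod 3) (i : II) :
    chi γ (i, ∅) = if i = istar then om ^ (γ 0).val else 1 := by
  unfold chi wt
  have h : ¬ (((i, ∅) : JI).2.Nonempty) := by simp
  rw [if_neg h]
  by_cases h1 : i = istar
  · rw [if_pos h1, if_pos (show ((i, ∅) : JI).1 = istar from h1)]
  · rw [if_neg h1, if_neg (show ¬ ((i, ∅) : JI).1 = istar from h1)]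

theorem FRQ_mulVec (hAct : SAct) (hRr1 : SRr1) (θ : Anti) (x : SS) (γ : ℕ → ZMod 3) (b : BB)
    (hb : b ∈ AA) (ζ : II → ℂ) (i : II) :
    (RR θ (act γ x) b).mulVec (fun i => conj (chi γ (i, ∅)) * ζ i) i =
      conj (chi γ (i, ∅)) * (RR θ x b).mulVec ζ i := by
  have h := (hRr1 θ).2.1 b hb γ x
  show ∑ j, RR θ (act γ x) b i j * (conj (chi γ (j, ∅)) * ζ j) =
    conj (chi γ (i, ∅)) * ∑ j, RR θ x b i j * ζ j
  rw [Finset.mul_sum]
  refine Finset.sum_congr rfl fun j _ => ?_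
  rw [h i j]
  linear_combination (conj (chi γ (i, ∅)) * RR θ x b i j * ζ j) * FRQ_chi_sq hAct γ (j, ∅)

theorem FRQ_gE (hGen : SGen) (i j : II) (h : linked i j) : gE i j ∈ AA := by
  have h1 := (hGen.1 (Sum.inl (i, j))).2
  unfold gen at h1
  simp only at h1
  rwa [if_pos h] at h1

theorem FRQ_gY (hGen : SGen) (k : Fin 3) : gY k ∈ AA := by
  have h1 := (hGen.1 (Sum.inr (Sum.inl (k, false)))).2
  simpa [gen] using h1

theorem FRQ_gH (hGen : SGen) (k l : Fin 3) : gH k l ∈ AA := by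
  have h1 := (hGen.1 (Sum.inr (Sum.inr (Sum.inr (k, l))))).2
  simpa [gen] using h1

theorem FRQ_linked (v : Fin (hh + 1)) : linked (bas v) (bas v) := ⟨rfl, Iff.rfl⟩

theorem FRQ_linked' (j : II) (h : j ≠ istar) : linked j (bas j.1) :=
  ⟨rfl, ⟨fun h1 => absurd h1 h, fun h1 => absurd h1 (bas_ne_istar _)⟩⟩

theorem FRQ_mv (hAct : SAct) (hRr1 : SRr1) (θ : Anti) (x : SS) (γ : ℕ → ZMod 3) (b : BB)
    (hb : b ∈ AA) (ξ : Fin (hh + 1) → II → ℂ) (v : Fin (hh + 1)) :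
    (RR θ (act γ x) b).mulVec (av γ ξ v) =
      fun i => conj (chi γ (i, ∅)) * (RR θ x b).mulVec (ξ v) i := by
  funext i
  exact FRQ_mulVec hAct hRr1 θ x γ b hb (ξ v) i

theorem FRQ_prod (γ : ℕ → ZMod 3) :
    ∏ i : II, conj (chi γ (i, ∅)) = conj (om ^ (γ 0).val) := by
  rw [Finset.prod_eq_single istar]
  · rw [FRQ_chi, if_pos rfl]
  · intro b _ hb
    rw [FRQ_chi, if_neg hb, map_one]
  · intro h
    exact absurd (Finset.mem_univ _) h

theorem FRQ_frame (hAct : SAct) (hRr1 : SRr1) (hGen : SGen) (θ : Anti) (x : SS)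
    (γ : ℕ → ZMod 3) (ξ : Fin (hh + 1) → II → ℂ) (c : Fin 3 → ℂ) (hf : IsFrame θ x ξ c) :
    IsFrame θ (act γ x) (av γ ξ) (ac γ c) := by
  obtain ⟨h1, h2, h3, h4, r, hr, h5⟩ := hf
  have hy : ∀ k, y0 (act γ x) k = om ^ (γ 0).val * y0 x k := by
    intro k
    rw [hAct.2.2.2.2.2.2.2.1 γ x]
    rfl
  refine ⟨?_, ?_, ?_, ?_, r, hr, ?_⟩
  · intro v
    rw [← h1 v]
    unfold ip av
    refine Finset.sum_congr rfl fun i _ => ?_
    rw [map_mul, Complex.conj_conj]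
    linear_combination (conj (ξ v i) * ξ v i) * FRQ_chi_sq hAct γ (i, ∅)
  · intro v
    rw [FRQ_mv hAct hRr1 θ x γ _ (FRQ_gE hGen _ _ (FRQ_linked v)), h2 v]
    rfl
  · intro k l
    rw [FRQ_mv hAct hRr1 θ x γ _ (FRQ_gH hGen k l), h3 k l]
    funext i
    show conj (chi γ (i, ∅)) * ((c k * conj (c l)) * ξ 0 i) =
      (om ^ (γ 0).val * c k * conj (om ^ (γ 0).val * c l)) * (conj (chi γ (i, ∅)) * ξ 0 i)
    rw [map_mul]
    linear_combination -(c k * conj (c l) * conj (chi γ (i, ∅)) * ξ 0 i) * FRQ_omsq (γ 0).val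
  · rw [← h4]
    refine Finset.sum_congr rfl fun k _ => ?_
    show ‖om ^ (γ 0).val * c k‖ ^ 2 = _
    rw [norm_mul, norm_pow, norm_om, one_pow, one_mul]
  · rw [← h5]
    refine Finset.sum_congr rfl fun k _ => ?_
    show conj (y0 (act γ x) k) * (om ^ (γ 0).val * c k) = _
    rw [hy k, map_mul]
    linear_combination (conj (y0 x k) * c k) * FRQ_omsq (γ 0).val

theorem FRQ_VV (hAct : SAct) (hRr1 : SRr1) (hGen : SGen) (θ : Anti) (x : SS)
    (γ : ℕ → ZMod 3) (ξ : Fin (hh + 1) → II → ℂ) (c : Fin 3 → ℂ) :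
    VV θ (act γ x) (av γ ξ) (ac γ c) =
      Matrix.diagonal (fun i => conj (chi γ (i, ∅))) * VV θ x ξ c *
        Matrix.diagonal (fun i => conj (chi γ (i, ∅))) := by
  ext i j
  rw [Matrix.mul_diagonal, Matrix.diagonal_mul]
  unfold VV
  by_cases hj : j = istar
  · rw [if_pos hj, if_pos hj, FRQ_chi γ j, if_pos hj, Finset.mul_sum, Finset.sum_mul]
    refine Finset.sum_congr rfl fun k _ => ?_
    rw [FRQ_mv hAct hRr1 θ x γ _ (FRQ_gY hGen k)]
    show conj (om ^ (γ 0).val * c k) * _ = _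
    rw [map_mul]
    ring
  · rw [if_neg hj, if_neg hj, FRQ_chi γ j, if_neg hj, map_one, mul_one,
      FRQ_mv hAct hRr1 θ x γ _ (FRQ_gE hGen _ _ (FRQ_linked' j hj))]

theorem sFrq (hRr1 : SRr1) (hAct : SAct) (hGen : SGen) : SFrq := by
  intro θ x _ γ ξ c hf
  refine ⟨FRQ_frame hAct hRr1 hGen θ x γ ξ c hf, ?_⟩
  rw [FRQ_VV hAct hRr1 hGen, Matrix.det_mul, Matrix.det_mul, Matrix.det_diagonal, FRQ_prod]
  have h3 : (om ^ (γ 0).val) ^ 3 = 1 := by
    rw [← pow_mul, mul_comm, pow_mul, om_pow_three, one_pow]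
  have h4 := FRQ_omsq (γ 0).val
  set u := om ^ (γ 0).val with hu
  have h5 : conj u * conj u = u := by
    calc conj u * conj u = (conj u * conj u) * u ^ 3 := by rw [h3, mul_one]
      _ = (conj u * u) ^ 2 * u := by ring
      _ = u := by rw [h4]; ring
  calc conj u * (VV θ x ξ c).det * conj u = (conj u * conj u) * (VV θ x ξ c).det := by ring
    _ = u * (VV θ x ξ c).det := by rw [h5]

end Pool.OPP
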