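import Mathlib
import Pool.Agent.H7.OPP.Stmts

/-!
# OPP, module FRX: frames exist
-/

set_option autoImplicit false

open scoped Topology ComplexConjugate

namespace Pool.OPP

theorem FRX_mulVec (M : Matrix II II ℂ) (ξ : II → ℂ) (h : ∀ a b, M a b = ξ a * conj (ξ b))
    (h1 : ip ξ ξ = 1) : M.mulVec ξ = ξ := by
  funext a
  have h2 : M.mulVec ξ a = ξ a * ip ξ ξ := by
    unfold Matrix.mulVec dotProduct ip
    rw [Finset.mul_sum]
    refine Finset.sum_congr rfl fun b _ => ?_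
    show M a b * ξ b = _
    rw [h]
    ring
  rw [h2, h1, mul_one]

theorem FRX_inner {a y c : EuclideanSpace ℂ (Fin 3)} (ha : ‖a‖ = 1) (hy : ‖y‖ = 1) (hc : ‖c‖ = 1)
    (h1 : 4 / 5 ≤ ‖inner ℂ a y‖) (h2 : 4 / 5 ≤ ‖inner ℂ a c‖) : inner ℂ y c ≠ 0 := by
  intro h0
  have ho : Orthonormal ℂ ![y, c] := by
    constructor
    · intro i
      fin_cases i
      · exact hy
      · exact hc
    · intro i j hij
      fin_cases i <;> fin_cases j
      · exact absurd rfl hij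
      · exact h0
      · show inner ℂ c y = 0
        rw [← inner_conj_symm, h0, map_zero]
      · exact absurd rfl hij
  have h3 := ho.sum_inner_products_le (s := Finset.univ) a
  rw [Fin.sum_univ_two, ha] at h3
  simp only [Matrix.cons_val_zero, Matrix.cons_val_one] at h3
  rw [norm_inner_symm y a, norm_inner_symm c a] at h3
  nlinarith

theorem sFrx (hR1b : SR1b) (hR2 : SR2) (hR3 : SR3) (hAct : SAct) : SFrx := by
  intro θ x hx
  have hFF : ∀ x : SS, ∃ w, x ∈ FF w := hAct.2.2.2.2.2.2.2.2.2.2.2.2.2.1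
  choose ξ hξ1 hξ2 using hR1b θ x hx
  have hv : ∀ i, (RR θ x (gE i i)).mulVec (ξ i) = ξ i := fun i =>
    FRX_mulVec _ _ (hξ2 i) (hξ1 i)
  obtain ⟨⟨c, hc1, hc2⟩, -⟩ := hR2 θ x hx (ξ (bas 0)) (hξ1 _) (hv _)
  obtain ⟨w, hw⟩ := hFF x
  have h3 := hR3 θ x hx w hw (ξ (bas 0)) (hξ1 _) (hv _) (WithLp.toLp 2 c) hc2
  have hw' : 4 / 5 ≤ ‖inner ℂ (cc w : EuclideanSpace ℂ (Fin 3)) (y0 x)‖ := hw
  have hy0 : ‖y0 x‖ = 1 := norm_eq_of_mem_sphere (x 0)
  have hcn : ‖(WithLp.toLp 2 c : EuclideanSpace ℂ (Fin 3))‖ = 1 := by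
    rw [EuclideanSpace.norm_eq]
    show √(∑ k, ‖c k‖ ^ 2) = 1
    rw [hc1, Real.sqrt_one]
  have hz := FRX_inner (norm_eq_of_mem_sphere (cc w)) hy0 hcn hw' h3
  set z : ℂ := ∑ k, conj (y0 x k) * c k with hzdef
  have hzi : inner ℂ (y0 x) (WithLp.toLp 2 c : EuclideanSpace ℂ (Fin 3)) = z := by
    rw [PiLp.inner_apply, hzdef]
    refine Finset.sum_congr rfl fun k _ => ?_
    show inner ℂ (y0 x k) (c k) = _
    rw [RCLike.inner_apply]
    ring
  rw [hzi] at hz
  have hzn : 0 < ‖z‖ := norm_pos_iff.2 hz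
  have hzn' : (‖z‖ : ℂ) ≠ 0 := by exact_mod_cast hzn.ne'
  have hu : conj z / (‖z‖ : ℂ) * conj (conj z / (‖z‖ : ℂ)) = 1 := by
    rw [map_div₀, Complex.conj_conj, Complex.conj_ofReal, div_mul_div_comm,
      mul_comm (conj z) z, Complex.mul_conj, Complex.normSq_eq_norm_sq]
    push_cast
    field_simp
  refine ⟨fun v => ξ (bas v), fun k => conj z / (‖z‖ : ℂ) * c k, fun v => hξ1 _, fun v => hv _,
    ?_, ?_, ‖z‖, hzn, ?_⟩
  · intro k l
    rw [hc2 k l]
    congr 1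
    rw [map_mul]
    linear_combination -(c k * conj (c l)) * hu
  · rw [← hc1]
    refine Finset.sum_congr rfl fun k _ => ?_
    rw [norm_mul, norm_div, RCLike.norm_conj, Complex.norm_real, norm_norm, div_self hzn.ne',
      one_mul]
  · have : ∑ k, conj (y0 x k) * (conj z / (‖z‖ : ℂ) * c k) = conj z / (‖z‖ : ℂ) * z := by
      rw [hzdef, Finset.mul_sum]
      refine Finset.sum_congr rfl fun k _ => ?_
      ring
    rw [this, div_mul_eq_mul_div, mul_comm (conj z) z, Complex.mul_conj, Complex.normSq_eq_norm_sq]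
    push_cast
    field_simp

end Pool.OPP
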