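import Mathlib
import Pool.Agent.H7.OPP.Stmts

/-!
# OPP, module NUC: nuclearity
-/

set_option autoImplicit false

open scoped Topology ComplexConjugate

namespace Pool.OPP

/-- extension of a tuple by zero -/
private def NUC_ex (n : ℕ) (g : Fin n → ZMod 3) : ℕ → ZMod 3 :=
  fun j => if h : j < n then g ⟨j, h⟩ else 0

private theorem NUC_avg (n : ℕ) (f : SS → ℝ) (s t : JI) (x : SS) :
    avg n f s t x = (3 ^ n : ℂ)⁻¹ * ∑ g : Fin n → ZMod 3,
      (f (act (-(NUC_ex n g)) x) : ℂ) * chi (NUC_ex n g) s * conj (chi (NUC_ex n g) t) := rfl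

private theorem NUC_card (n : ℕ) (z : ℂ) :
    (3 ^ n : ℂ)⁻¹ * ∑ _g : Fin n → ZMod 3, z = z := by
  rw [Finset.sum_const, Finset.card_univ, Fintype.card_fun, ZMod.card, Fintype.card_fin,
    nsmul_eq_mul, ← mul_assoc]
  push_cast
  rw [inv_mul_cancel₀ (pow_ne_zero _ (by norm_num)), one_mul]

/-- the estimate of a coefficient function -/
private theorem NUC_coef (hAct : SAct) {L n : ℕ} (p : Fin L → SS) (f : Fin L → C(SS, ℝ))
    (hf0 : ∀ l x, 0 ≤ f l x) (hf1 : ∀ x, ∑ l, f l x = 1) (s t : JI) (A : C(SS, ℂ))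
    (hA : Adm s t A) (ε : ℝ)
    (hfA : ∀ l x, f l x ≠ 0 → ‖A x - A (p l)‖ < ε) (x : SS) :
    ‖∑ l, A (p l) * coef n p f l s t x - A x‖ ≤ ε := by
  obtain ⟨hA1, hA2, -⟩ := hA
  have hact0 : ∀ x : SS, act 0 x = x := hAct.1
  have hactadd : ∀ γ γ' (x : SS), act (γ + γ') x = act γ (act γ' x) := hAct.2.1
  have hchi : ∀ γ s, ‖chi γ s‖ = 1 := hAct.2.2.2.2.2.2.2.2.1
  have h1 : ∀ l, A (p l) * coef n p f l s t x = A (p l) * avg n (f l) s t x := by
    intro l
    unfold coef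
    split_ifs with hc
    · rfl
    · push Not at hc
      obtain ⟨w, hw1, hw2⟩ := hc
      have : A (p l) = 0 := by
        apply hA2 w (p l) hw1
        intro h
        rcases hw2 with ⟨h3, h4⟩ | ⟨h3, h4⟩
        · exact h4 (h.1 h3)
        · exact h3 (h.2 h4)
      rw [this, zero_mul, zero_mul]
  have h2 : ∀ γ, A x = chi γ s * conj (chi γ t) * A (act (-γ) x) := by
    intro γ
    rw [← hA1 γ (act (-γ) x), ← hactadd, add_neg_cancel, hact0]
  have h3 : ∑ l, A (p l) * coef n p f l s t x - A x = (3 ^ n : ℂ)⁻¹ * ∑ g : Fin n → ZMod 3,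
      ∑ l, (f l (act (-(NUC_ex n g)) x) : ℂ) *
        (chi (NUC_ex n g) s * conj (chi (NUC_ex n g) t) *
          (A (p l) - A (act (-(NUC_ex n g)) x))) := by
    have e1 : ∑ l, A (p l) * coef n p f l s t x = (3 ^ n : ℂ)⁻¹ * ∑ g : Fin n → ZMod 3,
        ∑ l, A (p l) * ((f l (act (-(NUC_ex n g)) x) : ℂ) * chi (NUC_ex n g) s *
          conj (chi (NUC_ex n g) t)) := by
      rw [Finset.sum_comm, Finset.mul_sum]
      refine Finset.sum_congr rfl fun l _ => ?_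
      rw [h1 l, NUC_avg, ← Finset.mul_sum]
      ring
    have e2 : A x = (3 ^ n : ℂ)⁻¹ * ∑ g : Fin n → ZMod 3,
        ∑ l, (f l (act (-(NUC_ex n g)) x) : ℂ) * (chi (NUC_ex n g) s *
          conj (chi (NUC_ex n g) t) * A (act (-(NUC_ex n g)) x)) := by
      have e3 : ∀ g : Fin n → ZMod 3, ∑ l, (f l (act (-(NUC_ex n g)) x) : ℂ) *
          (chi (NUC_ex n g) s * conj (chi (NUC_ex n g) t) * A (act (-(NUC_ex n g)) x)) = A x := by
        intro g
        rw [← Finset.sum_mul, ← h2]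
        have : ∑ l, (f l (act (-(NUC_ex n g)) x) : ℂ) = 1 := by
          exact_mod_cast hf1 (act (-(NUC_ex n g)) x)
        rw [this, one_mul]
      rw [Finset.sum_congr rfl fun g _ => e3 g, NUC_card]
    rw [e1]
    conv_lhs => rw [e2]
    rw [← mul_sub, ← Finset.sum_sub_distrib]
    congr 1
    refine Finset.sum_congr rfl fun g _ => ?_
    rw [← Finset.sum_sub_distrib]
    refine Finset.sum_congr rfl fun l _ => ?_
    ring
  rw [h3, norm_mul, norm_inv, norm_pow]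
  have h4 : ‖(3 : ℂ)‖ = 3 := by simp
  rw [h4]
  have h5 : ∀ g : Fin n → ZMod 3, ‖∑ l, (f l (act (-(NUC_ex n g)) x) : ℂ) *
        (chi (NUC_ex n g) s * conj (chi (NUC_ex n g) t) *
          (A (p l) - A (act (-(NUC_ex n g)) x)))‖ ≤ ε := by
    intro g
    refine (norm_sum_le _ _).trans ?_
    have h6 : ∀ l ∈ (Finset.univ : Finset (Fin L)), ‖(f l (act (-(NUC_ex n g)) x) : ℂ) *
        (chi (NUC_ex n g) s * conj (chi (NUC_ex n g) t) *
          (A (p l) - A (act (-(NUC_ex n g)) x)))‖ ≤ f l (act (-(NUC_ex n g)) x) * ε := by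
      intro l _
      rw [norm_mul, norm_mul, norm_mul, hchi, RCLike.norm_conj, hchi, one_mul, one_mul,
        Complex.norm_real, Real.norm_eq_abs, abs_of_nonneg (hf0 _ _)]
      by_cases h7 : f l (act (-(NUC_ex n g)) x) = 0
      · rw [h7, zero_mul, zero_mul]
      · refine mul_le_mul_of_nonneg_left ?_ (hf0 _ _)
        rw [norm_sub_rev]
        exact (hfA l _ h7).le
    refine (Finset.sum_le_sum h6).trans ?_
    rw [← Finset.sum_mul, hf1, one_mul]
  calc (3 ^ n : ℝ)⁻¹ * ‖∑ g : Fin n → ZMod 3, ∑ l, (f l (act (-(NUC_ex n g)) x) : ℂ) *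
        (chi (NUC_ex n g) s * conj (chi (NUC_ex n g) t) *
          (A (p l) - A (act (-(NUC_ex n g)) x)))‖
      ≤ (3 ^ n : ℝ)⁻¹ * ∑ _g : Fin n → ZMod 3, ε := by
        refine mul_le_mul_of_nonneg_left ?_ (by positivity)
        refine (norm_sum_le _ _).trans ?_
        exact Finset.sum_le_sum fun g _ => h5 g
    _ = ε := by
        rw [Finset.sum_const, Finset.card_univ, Fintype.card_fun, ZMod.card, Fintype.card_fin,
          nsmul_eq_mul, ← mul_assoc]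
        push_cast
        rw [inv_mul_cancel₀ (by positivity), one_mul]

private theorem NUC_sub (hGa : SGa) (k : ℕ) (s t : JI) (hs : s ∈ JJ k) (ht : t ∈ JJ k)
    (h h' : C(SS, ℂ)) : GG k s t h - GG k s t h' = GG k s t (h - h') := by
  obtain ⟨-, -, h3, h4, -, -⟩ := hGa k s t hs ht h
  have h5 := (hGa k s t hs ht h').2.2.2.1 (-1)
  rw [sub_eq_add_neg h h', ← neg_one_smul ℂ h', ← h3, ← h5, neg_one_smul, ← sub_eq_add_neg]

private theorem NUC_low (k : ℕ) (s : JI) (hs : s ∈ JJ k) : low k s = s ∧ high k s = ∅ := by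
  unfold JJ at hs
  rw [Finset.mem_product, Finset.mem_powerset] at hs
  have h2 : ∀ i ∈ s.2, i < k := fun i hi => Finset.mem_range.1 (hs.2 hi)
  constructor
  · unfold low
    rw [Finset.filter_true_of_mem h2]
  · unfold high
    rw [Finset.filter_false_of_mem]
    intro i hi
    exact not_le.2 (h2 i hi)

private theorem NUC_pt (x : SS) : pt x ∅ = x := by
  unfold pt
  rw [dif_neg (by simp)]

private theorem NUC_mc_sum (k : ℕ) (g : JI → JI → BB) (x : SS) (u v : JI) :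
    mc ((∑ s ∈ JJ k, ∑ t ∈ JJ k, g s t : BB) x) u v =
      ∑ s ∈ JJ k, ∑ t ∈ JJ k, mc (g s t x) u v := by
  have h1 : (∑ s ∈ JJ k, ∑ t ∈ JJ k, g s t : BB) x = ∑ s ∈ JJ k, ∑ t ∈ JJ k, (g s t x) := by
    rw [ContinuousMap.sum_apply]
    refine Finset.sum_congr rfl fun s _ => ?_
    rw [ContinuousMap.sum_apply]
  rw [h1]
  unfold mc
  rw [ContinuousLinearMap.sum_apply, lp.coeFn_sum, Finset.sum_apply]
  refine Finset.sum_congr rfl fun s _ => ?_
  rw [ContinuousLinearMap.sum_apply, lp.coeFn_sum, Finset.sum_apply]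

private theorem NUC_entry (hEnt : SEnt) (k : ℕ) (a : JI → JI → C(SS, ℂ)) (x : SS) (u v : JI)
    (hu : u ∈ JJ k) (hv : v ∈ JJ k) :
    mc ((∑ s ∈ JJ k, ∑ t ∈ JJ k, GG k s t (a s t) : BB) x) u v = a u v x := by
  rw [NUC_mc_sum]
  have h1 : ∀ s ∈ JJ k, ∀ t ∈ JJ k, mc (GG k s t (a s t) x) u v =
      if u = s then (if v = t then a s t x else 0) else 0 := by
    intro s hs t ht
    rw [hEnt.1 k s t hs ht, (NUC_low k u hu).1, (NUC_low k v hv).1, (NUC_low k u hu).2,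
      (NUC_low k v hv).2, NUC_pt]
    by_cases h1 : u = s <;> by_cases h2 : v = t <;> simp [h1, h2]
  rw [Finset.sum_congr rfl fun s hs => Finset.sum_congr rfl fun t ht => h1 s hs t ht]
  rw [Finset.sum_eq_single u]
  · rw [Finset.sum_eq_single v]
    · simp
    · intro b _ hb
      rw [if_pos rfl, if_neg (Ne.symm hb)]
    · intro h
      exact absurd hv h
  · intro b _ hb
    refine Finset.sum_eq_zero fun t _ => ?_
    rw [if_neg (Ne.symm hb)]
  · intro h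
    exact absurd hu h

theorem sNuc (hDen : SDen) (hPun : SPun) (hNphi : SNphi) (hNpsi : SNpsi) (hGa : SGa)
    (hAct : SAct) (hEnt : SEnt) : SNuc := by
  intro F ε hε
  obtain ⟨k, a, -, ha⟩ := hDen F (fun i => ((i : AA) : BB)) (fun i => (i : AA).2) (ε / 4)
    (by positivity) 0
  have hlev : ∀ i : F, ∃ A : JI → JI → C(SS, ℂ), (∀ s ∈ JJ k, ∀ t ∈ JJ k, Adm s t (A s t)) ∧
    a i = ∑ s ∈ JJ k, ∑ t ∈ JJ k, GG k s t (A s t) := fun i => (ha i).1
  choose A hA1 hA2 using hlev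
  set K : ℝ := ((JJ k).card : ℝ) with hK
  have hK0 : 0 ≤ K := by rw [hK]; exact Nat.cast_nonneg _
  set δ : ℝ := ε / (4 * (K * K + 1)) with hδ
  have hδ0 : 0 < δ := by
    rw [hδ]
    apply div_pos hε
    nlinarith
  obtain ⟨L, n0, p, f, hf0, hf1, hf2, hf3⟩ := hPun (F × JJ k × JJ k)
    (fun q => A q.1 q.2.1 q.2.2) δ hδ0 (fun q => (hA1 q.1 _ q.2.1.2 _ q.2.2.2).2.2)
  set n := max n0 (k + 1) with hn
  have hkn : k < n := by
    have : k + 1 ≤ n := le_max_right _ _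
    omega
  have hf2' : ∀ l, ∀ x y : SS, (∀ j < n, x j = y j) → f l x = f l y := by
    intro l x y h
    exact hf2 l x y fun j hj => h j (lt_of_lt_of_le hj (le_max_left _ _))
  have hf4 : ∀ l x, f l x ≠ 0 → ∀ w, x ∈ FF w → p l ∈ FF w := fun l x h => (hf3 l x h).2
  obtain ⟨m, e, φ, hφ1, hφ2, hφ3⟩ := hNphi L k p
  obtain ⟨ψ, hψ1, hψ2, hψ3⟩ := hNpsi L k n m e p f hkn hf0 hf1 hf2' hf4
  refine ⟨m, φ, ψ, hφ2, hψ2, hφ3, hψ3, ?_⟩
  intro x hx
  set i : F := ⟨x, hx⟩ with hi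
  obtain ⟨-, haAA, han⟩ := ha i
  set b : AA := ⟨a i, haAA⟩ with hb
  have hbx : ‖b - x‖ < ε / 4 := han
  -- the main estimate
  have hmain : ‖ψ (φ b) - b‖ ≤ ε / 4 := by
    obtain ⟨h, hh1, hh2⟩ := hψ1 (φ b)
    have e1 : ((ψ (φ b) - b : AA) : BB) = ∑ s ∈ JJ k, ∑ t ∈ JJ k, GG k s t (h s t - A i s t) := by
      show (ψ (φ b) : BB) - (b : BB) = _
      rw [hh2]
      have : (b : BB) = ∑ s ∈ JJ k, ∑ t ∈ JJ k, GG k s t (A i s t) := hA2 i
      rw [this, ← Finset.sum_sub_distrib]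
      refine Finset.sum_congr rfl fun s hs => ?_
      rw [← Finset.sum_sub_distrib]
      refine Finset.sum_congr rfl fun t ht => ?_
      exact NUC_sub hGa k s t hs ht _ _
    have e2 : ∀ s ∈ JJ k, ∀ t ∈ JJ k, ‖GG k s t (h s t - A i s t)‖ ≤ δ := by
      intro s hs t ht
      refine ((hGa k s t hs ht _).2.2.2.2.1).trans ?_
      rw [ContinuousMap.norm_le _ hδ0.le]
      intro y
      rw [ContinuousMap.sub_apply, (hh1 ⟨s, hs⟩ ⟨t, ht⟩).2 y]
      have e3 : ∀ l, φ b (e (l, ⟨s, hs⟩)) (e (l, ⟨t, ht⟩)) = A i s t (p l) := by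
        intro l
        rw [hφ1, if_pos rfl]
        have : (b : BB) = ∑ s ∈ JJ k, ∑ t ∈ JJ k, GG k s t (A i s t) := hA2 i
        rw [this]
        exact NUC_entry hEnt k (A i) (p l) s t hs ht
      rw [Finset.sum_congr rfl fun l _ => by rw [e3 l]]
      exact NUC_coef hAct p f hf0 hf1 s t (A i s t) (hA1 i s hs t ht) δ
        (fun l x hx => (hf3 l x hx).1 (i, ⟨s, hs⟩, ⟨t, ht⟩)) y
    have e4 : ‖ψ (φ b) - b‖ = ‖((ψ (φ b) - b : AA) : BB)‖ := rfl
    rw [e4, e1]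
    calc ‖∑ s ∈ JJ k, ∑ t ∈ JJ k, GG k s t (h s t - A i s t)‖
        ≤ ∑ s ∈ JJ k, ∑ t ∈ JJ k, δ := by
          refine (norm_sum_le _ _).trans (Finset.sum_le_sum fun s hs => ?_)
          exact (norm_sum_le _ _).trans (Finset.sum_le_sum fun t ht => e2 s hs t ht)
      _ = K * K * δ := by
          rw [Finset.sum_const, Finset.sum_const, nsmul_eq_mul, nsmul_eq_mul]
          ring
      _ ≤ ε / 4 := by
          rw [hδ, mul_div_assoc', div_le_div_iff₀ (by nlinarith) (by norm_num)]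
          nlinarith
  have e5 : ψ (φ x) - x = (ψ (φ b) - b) + (b - x) - ψ (φ (b - x)) := by
    rw [map_sub, map_sub]
    abel
  rw [e5]
  have e6 : ‖ψ (φ (b - x))‖ ≤ ‖b - x‖ := (hψ3 _).trans (hφ3 _)
  have e7 : ‖ψ (φ b) - b + (b - x) - ψ (φ (b - x))‖ ≤
      ‖ψ (φ b) - b‖ + ‖b - x‖ + ‖ψ (φ (b - x))‖ :=
    (norm_sub_le _ _).trans (add_le_add (norm_add_le _ _) le_rfl)
  linarith

end Pool.OPP
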